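import Mathlib
import Pool.Agent.Helper227.Defs
import Pool.Agent.Helper227.Mach
import Pool.Agent.Helper227.VL
import Pool.Agent.H561R3.LR.Base
import Pool.Agent.H561R3.LR.KG2

set_option autoImplicit false

namespace Pool.Agent.Results.MP_de6bcb_lc.LRBase

open Pool.Agent.Helper227

/-- `C ≤_LR D`: every set that is Martin-Löf random relative to `D` is Martin-Löf random
relative to `C`. -/
def LRLe (C D : ℕ → Bool) : Prop := ∀ X : ℕ → Bool, MLR D X → MLR C X

/-- If `A ⊕ B ≤_LR B` and `B` is Martin-Löf random relative to `A`, then `A` is K-trivial. -/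
theorem result (U : List Bool →. List Bool) (hU : IsUniversal U) (A B : ℕ → Bool)
    (hLR : LRLe (join A B) B) (hB : MLR A B) : KTrivial U A := by
  obtain ⟨Z, hZ, hT⟩ := Pool.Agent.H561R3.LR.kucera_gacs A B
  exact Pool.Agent.H561R3.LR.base_KTrivial hU hT (MLR.join_of hB (hLR Z hZ))

end Pool.Agent.Results.MP_de6bcb_lc.LRBase
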